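import Pool.Agent.helper22.FI3.SpecCQ

/-!
# Project fi3 (MP_baa4d7_al), block CQ, row JIN: inflation of characters
-/

set_option autoImplicit false

namespace Pool.Agent.FI3

open Pool.Agent.helper58.DC Pool.Agent.DI Pool.Agent.GR Pool.Agent.OB Pool.Agent.DR Pool.Agent.FI

section

variable {G : Type} [Group G] {Gb : Type} [Group Gb]

/-- the restriction of `π` to the preimage of `N` -/
def JIN_map {L : Subgroup G} (π : L →* Gb) (N : Subgroup Gb) : pre π N →* N where
  toFun x := ⟨π ⟨x.1, (mem_pre.1 x.2).1⟩, (mem_pre.1 x.2).2⟩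
  map_one' := by
    apply Subtype.ext
    change π 1 = 1
    exact map_one π
  map_mul' x y := by
    apply Subtype.ext
    change π (⟨x.1, (mem_pre.1 x.2).1⟩ * ⟨y.1, (mem_pre.1 y.2).1⟩) = _
    rw [map_mul]
    rfl

theorem JIN_sur {p : ℕ} {L Z : Subgroup G} {π : L →* Gb} (h : Qt p L Z π) (N : Subgroup Gb) :
    Function.Surjective (JIN_map π N) := by
  rintro ⟨y, hy⟩
  obtain ⟨a, ha⟩ := h.sur y
  have h1 : (a : G) ∈ pre π N := mem_pre.2 ⟨a.2, by
    have : π ⟨(a : G), a.2⟩ = y := ha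
    rw [this]
    exact hy⟩
  refine ⟨⟨a, h1⟩, ?_⟩
  apply Subtype.ext
  exact ha

end

theorem JIN (hJIR : JIR_stmt) (hJSG : JSG_stmt) : JIN_stmt := by
  classical
  intro p _ G Gb _ _ _ _ L Z π h
  have _h0 := hJSG
  refine ⟨?_, ?_, ?_, ?_⟩
  · intro f f' hf
    funext y
    obtain ⟨a, ha⟩ := h.sur y
    have h1 := congrFun hf (a : G)
    rw [infl_mem π f a.2, infl_mem π f' a.2] at h1
    have h2 : π ⟨(a : G), a.2⟩ = y := ha
    rwa [h2] at h1
  · intro N f hf
    have h1 := (hJIR (pre π N) N (JIN_map π N) (JIN_sur h N)).1 _ hf.2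
    refine ⟨?_, ?_⟩
    · intro x hx
      by_cases hL : x ∈ L
      · rw [infl_mem π f hL]
        exact hf.1 _ fun h2 => hx (mem_pre.2 ⟨hL, h2⟩)
      · exact infl_not π f hL
    · have h2 : (fun x : pre π N => infl π f x) = fun a => (fun n : N => f n) (JIN_map π N a) := by
        funext x
        rw [infl_mem π f (mem_pre.1 x.2).1]
        rfl
      rw [h2]
      exact h1
  · intro N φ hφ hZ
    obtain ⟨χ, hχ, e⟩ := (hJIR (pre π N) N (JIN_map π N) (JIN_sur h N)).2 _ hφ.2 (by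
      intro z a hz
      have h1 : π ⟨z.1, (mem_pre.1 z.2).1⟩ = 1 := congrArg Subtype.val hz
      have h2 : (z : G) ∈ Z := (h.ker _).1 h1
      exact hZ z h2 a)
    let f : Gb → ℂ := fun y => if hy : y ∈ N then χ ⟨y, hy⟩ else 0
    have hf : ∀ n : N, f n = χ n := by
      intro n
      change (if hy : (n : Gb) ∈ N then χ ⟨n, hy⟩ else 0) = χ n
      rw [dif_pos n.2]
    refine ⟨f, ⟨?_, ?_⟩, ?_⟩
    · intro y hy
      change (if hy : y ∈ N then χ ⟨y, hy⟩ else 0) = 0
      rw [dif_neg hy]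
    · have h2 : (fun n : N => f n) = χ := funext hf
      rw [h2]
      exact hχ
    · funext x
      by_cases hx : x ∈ pre π N
      · have h3 := e ⟨x, hx⟩
        rw [infl_mem π f (mem_pre.1 hx).1]
        have h4 : f (π ⟨x, (mem_pre.1 hx).1⟩) = χ (JIN_map π N ⟨x, hx⟩) := hf (JIN_map π N ⟨x, hx⟩)
        rw [h4]
        exact h3.symm
      · rw [hφ.1 x hx]
        by_cases hL : x ∈ L
        · rw [infl_mem π f hL]
          change (if hy : π ⟨x, hL⟩ ∈ N then χ ⟨_, hy⟩ else 0) = 0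
          rw [dif_neg fun h2 => hx (mem_pre.2 ⟨hL, h2⟩)]
        · exact infl_not π f hL
  · intro f
    refine ⟨?_, ?_⟩
    · rw [infl_mem π f L.one_mem]
      have h1 : (⟨1, L.one_mem⟩ : L) = 1 := rfl
      rw [h1, map_one]
    · intro z hz x
      by_cases hx : x ∈ L
      · have hzL : z ∈ L := h.le hz
        rw [infl_mem π f hx, infl_mem π f (L.mul_mem hzL hx)]
        have h1 : (⟨z * x, L.mul_mem hzL hx⟩ : L) = ⟨z, hzL⟩ * ⟨x, hx⟩ := rfl
        rw [h1, map_mul, (h.ker ⟨z, hzL⟩).2 hz, one_mul]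
      · have h2 : z * x ∉ L := fun h3 => hx (by
          have h4 := L.mul_mem (L.inv_mem (h.le hz)) h3
          rwa [inv_mul_cancel_left] at h4)
        rw [infl_not π f hx, infl_not π f h2]

end Pool.Agent.FI3
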